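import Pool.Agent.helper2.BB.Spec

set_option autoImplicit false

namespace BB

open Metric MeasureTheory Set Filter Topology Asymptotics
open Pool.Agent.helper37.PR

theorem C1 : C1_stmt := by
  intro E _ _ _ f e m hf
  set A : ℂ →L[ℂ] E := ContinuousLinearMap.toSpanSingleton ℂ e with hA
  have hA1 : ∀ ζ : ℂ, A ζ = ζ • e := fun ζ => by
    rw [hA, ContinuousLinearMap.toSpanSingleton_apply]
  set s : Set E := {x | AnalyticAt ℂ f x} with hs
  have hso : IsOpen s := isOpen_analyticAt ℂ f
  have hs0 : (0 : E) ∈ s := hf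
  have hpre : IsOpen (A ⁻¹' s) := hso.preimage A.continuous
  have hA0 : A 0 = 0 := map_zero A
  have hc : ContDiffOn ℂ m f s := fun x hx => (AnalyticAt.contDiffAt hx).contDiffWithinAt
  have h1 : iteratedFDeriv ℂ m (f ∘ A) 0 =
      (iteratedFDeriv ℂ m f 0).compContinuousLinearMap fun _ => A := by
    have h2 := A.iteratedFDerivWithin_comp_right hc hso.uniqueDiffOn hpre.uniqueDiffOn
      (x := 0) (by rw [hA0]; exact hs0) (i := m) le_rfl
    have h3 : (0 : ℂ) ∈ A ⁻¹' s := by
      show A 0 ∈ s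
      rw [hA0]
      exact hs0
    rw [iteratedFDerivWithin_of_isOpen m hpre h3, hA0, iteratedFDerivWithin_of_isOpen m hso hs0] at h2
    exact h2
  have h4 : ContDiffAt ℂ m (f ∘ A) 0 := by
    have : AnalyticAt ℂ (f ∘ A) 0 := by
      refine AnalyticAt.comp ?_ (A.analyticAt 0)
      rw [hA0]
      exact hf
    exact this.contDiffAt
  have h5 : iteratedFDeriv ℂ m ((innerSL ℂ e) ∘ (f ∘ A)) 0 =
      (innerSL ℂ e).compContinuousMultilinearMap (iteratedFDeriv ℂ m (f ∘ A) 0) :=
    (innerSL ℂ e).iteratedFDeriv_comp_left h4 le_rfl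
  have h6 : (fun ζ : ℂ => (inner ℂ e (f (ζ • e)) : ℂ)) = (innerSL ℂ e) ∘ (f ∘ A) := by
    funext ζ
    simp only [Function.comp, innerSL_apply_apply, hA1]
  unfold cf
  rw [h6, iteratedDeriv_eq_iteratedFDeriv, h5, h1, inner_smul_right]
  simp only [ContinuousLinearMap.compContinuousMultilinearMap_coe, Function.comp,
    ContinuousMultilinearMap.compContinuousLinearMap_apply, innerSL_apply_apply, hA1, one_smul]
  rw [div_eq_inv_mul]

end BB
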