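import Pool.Agent.helper2.BB.Spec

set_option autoImplicit false

namespace BB

open Metric MeasureTheory Set Filter Topology Asymptotics
open Pool.Agent.helper37.PR

theorem C3_fst {P : ℂ × ℂ → ℂ × ℂ} (hP : AnalyticAt ℂ P 0) :
    AnalyticAt ℂ (fun p => (P p).1) 0 := (analyticAt_fst (𝕜 := ℂ) (p := P 0)).comp hP

theorem C3_snd {P : ℂ × ℂ → ℂ × ℂ} (hP : AnalyticAt ℂ P 0) :
    AnalyticAt ℂ (fun p => (P p).2) 0 := (analyticAt_snd (𝕜 := ℂ) (p := P 0)).comp hP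

theorem C3_cos {θ : ℂ × ℂ → ℂ} (hθ : AnalyticAt ℂ θ 0) :
    AnalyticAt ℂ (fun p => Complex.cos (θ p)) 0 :=
  (Complex.differentiable_cos.analyticAt (θ 0)).comp hθ

theorem C3_sin {θ : ℂ × ℂ → ℂ} (hθ : AnalyticAt ℂ θ 0) :
    AnalyticAt ℂ (fun p => Complex.sin (θ p)) 0 :=
  (Complex.differentiable_sin.analyticAt (θ 0)).comp hθ

theorem C3_w {θ : ℂ × ℂ → ℂ} {P : ℂ × ℂ → ℂ × ℂ} (hθ : AnalyticAt ℂ θ 0) (hP : AnalyticAt ℂ P 0) :
    AnalyticAt ℂ (fun p => (P p).1 * Complex.cos (θ p) + (P p).2 * Complex.sin (θ p)) 0 :=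
  ((C3_fst hP).mul (C3_cos hθ)).add ((C3_snd hP).mul (C3_sin hθ))

theorem C3_comp {g : ℂ → ℂ} (hg : AnalyticOnNhd ℂ g (ball 0 1)) {w : ℂ × ℂ → ℂ}
    (hw : AnalyticAt ℂ w 0) (h0 : w 0 = 0) : AnalyticAt ℂ (fun p => g (w p)) 0 := by
  have h : AnalyticAt ℂ g (w 0) := by
    rw [h0]
    exact hg 0 (by simp)
  exact h.comp hw

theorem C3_stg (hA4 : A4_stmt) (ε : Bool) (q : ℝ) (hq : 0 < q) (hq1 : q ≤ 1) {θ : ℂ × ℂ → ℂ}
    {P : ℂ × ℂ → ℂ × ℂ} (hθ : AnalyticAt ℂ θ 0) (hP : AnalyticAt ℂ P 0) (hP0 : P 0 = 0) :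
    AnalyticAt ℂ (fun p => stg ε (θ p) q (P p)) 0 ∧ stg ε (θ 0) q (P 0) = 0 := by
  obtain ⟨-, -, -, hsc, hrho⟩ := hA4 q hq hq1
  have hw := C3_w hθ hP
  have hw0 : (fun p => (P p).1 * Complex.cos (θ p) + (P p).2 * Complex.sin (θ p)) (0 : ℂ × ℂ) = 0 := by
    simp [hP0]
  have hs := C3_comp hsc hw hw0
  have hr := C3_comp (hrho ε) hw hw0
  constructor
  · unfold stg
    refine AnalyticAt.prod ?_ ?_
    · exact ((hs.mul hw).mul (C3_cos hθ)).sub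
        (((hs.mul hr).mul (((C3_snd hP).mul (C3_cos hθ)).sub ((C3_fst hP).mul (C3_sin hθ)))).mul
          (C3_sin hθ))
    · exact ((hs.mul hw).mul (C3_sin hθ)).add
        (((hs.mul hr).mul (((C3_snd hP).mul (C3_cos hθ)).sub ((C3_fst hP).mul (C3_sin hθ)))).mul
          (C3_cos hθ))
  · rw [hP0]
    unfold stg
    simp

theorem C3_fin (hRf : AnalyticOnNhd ℂ Rf (ball 0 1)) {θ : ℂ × ℂ → ℂ}
    {P : ℂ × ℂ → ℂ × ℂ} (hθ : AnalyticAt ℂ θ 0) (hP : AnalyticAt ℂ P 0) (hP0 : P 0 = 0) :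
    AnalyticAt ℂ (fun p => fin (θ p) (P p)) 0 := by
  have hw := C3_w hθ hP
  have hw0 : (fun p => (P p).1 * Complex.cos (θ p) + (P p).2 * Complex.sin (θ p)) (0 : ℂ × ℂ) = 0 := by
    simp [hP0]
  have hr := C3_comp hRf hw hw0
  unfold fin
  refine AnalyticAt.mul (AnalyticAt.inv ((analyticAt_const.sub hw).pow 2) ?_)
    ((hw.mul (C3_cos hθ)).sub
      ((hr.mul (((C3_snd hP).mul (C3_cos hθ)).sub ((C3_fst hP).mul (C3_sin hθ)))).mul (C3_sin hθ)))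
  simp [hP0]

theorem C3 (hA4 : A4_stmt) : C3_stmt := by
  intro δ lam hδ hδ1
  have h1 : AnalyticAt ℂ (fun p : ℂ × ℂ => (p.2, (0 : ℂ))) 0 := analyticAt_snd.prod analyticAt_const
  obtain ⟨a1, a2⟩ := C3_stg hA4 true (3 * δ) (by linarith) (by linarith)
    (θ := fun _ => 0) (P := fun p : ℂ × ℂ => (p.2, (0 : ℂ))) analyticAt_const h1 rfl
  obtain ⟨b1, b2⟩ := C3_stg hA4 true (2 / 3) (by norm_num) (by norm_num)
    (θ := fun p => p.1) analyticAt_fst a1 a2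
  obtain ⟨c1, c2⟩ := C3_stg hA4 false (1 / 2) (by norm_num) (by norm_num)
    (θ := fun p => -((lam : ℂ) * δ * p.1)) (analyticAt_const.mul analyticAt_fst).neg b1 b2
  have d := C3_fin (hA4 1 one_pos le_rfl).1 (θ := fun p : ℂ × ℂ => -p.1) analyticAt_fst.neg c1 c2
  have e : (fun p : ℂ × ℂ => FF δ lam p.1 p.2) = fun p : ℂ × ℂ => (δ : ℂ)⁻¹ *
      fin (-p.1) (stg false (-((lam : ℂ) * δ * p.1)) (1 / 2)
        (stg true p.1 (2 / 3) (stg true 0 (3 * δ) (p.2, 0)))) := by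
    funext p
    rfl
  rw [e]
  exact analyticAt_const.mul d

end BB
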